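import Pool.Agent.Helper96.QT.DefL
import Pool.Agent.Helper1.QT.Gam
import Pool.Agent.Helper57.Zeta.XiUpper

/-!
QTL4: the Gamma factors with `z ζ(1 + 2z)`.
-/

namespace Pool.Agent.QT

open Real Filter Topology MeasureTheory Set DirichletCharacter

private lemma tz_diff88 : Differentiable ℂ (fun z : ℂ => LFunctionTrivChar₁ 1 (1 + 2 * z) / 2) := by
  have h := differentiable_LFunctionTrivChar₁ 1
  have h2 : Differentiable ℂ (fun z : ℂ => (1 : ℂ) + 2 * z) := by fun_prop
  exact (h.comp h2).div_const 2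

theorem SZ_diff (ev : Bool) (d : ℝ) {z : ℂ} (hz : |z.re| ≤ 1) : DifferentiableAt ℂ (SZ ev d) z :=
  (SS_diff ev d hz).mul (tz_diff88 z)

private lemma gam_up88 {x : ℝ} (h1 : 1 / 4 ≤ x) (h2 : x ≤ 5 / 2) : Real.Gamma x ≤ 4 := by
  rcases le_total x 1 with h | h
  · refine (Pool.Agent.H62.Gamma_le_inv (by linarith) h).trans ?_
    rw [div_le_iff₀ (by linarith)]
    linarith
  · rcases le_total x 2 with h' | h'
    · exact (Pool.Agent.H62.Gamma_le_one h h').trans (by norm_num)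
    · have h3 : Real.Gamma x = (x - 1) * Real.Gamma (x - 1) := by
        have := Real.Gamma_add_one (s := x - 1) (by linarith)
        rwa [sub_add_cancel] at this
      have h4 := Pool.Agent.H62.Gamma_le_one (x := x - 1) (by linarith) (by linarith)
      have h5 : 0 < Real.Gamma (x - 1) := Real.Gamma_pos_of_pos (by linarith)
      rw [h3]
      nlinarith

/-- `1/Γ` in the strip away from the real line. -/
private lemma inv_gam88 {v : ℂ} (h1 : -(1 / 2) ≤ v.re) (h2 : v.re ≤ 3 / 2) (h3 : 1 / 2 ≤ |v.im|) :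
    ‖(Complex.Gamma v)⁻¹‖ ≤ 8 * Real.exp (π * |v.im|) := by
  have hrefl := Complex.Gamma_mul_Gamma_one_sub v
  have him0 : v.im ≠ 0 := by
    intro h
    rw [h, abs_zero] at h3
    linarith
  have hv1 : (1 - v) ≠ 0 := by
    intro h
    have := congrArg Complex.im h
    simp at this
    exact him0 this
  have hG : Complex.Gamma (1 - v) = Complex.Gamma (2 - v) / (1 - v) := by
    rw [eq_div_iff hv1, mul_comm, ← Complex.Gamma_add_one _ hv1]
    congr 1
    ring
  have hre : (2 - v).re = 2 - v.re := by simp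
  have hG2 : ‖Complex.Gamma (2 - v)‖ ≤ 4 := by
    refine (Pool.Agent.H62.norm_Gamma_le (by rw [hre]; linarith)).trans ?_
    rw [hre]
    exact gam_up88 (by linarith) (by linarith)
  have hn1 : 1 / 2 ≤ ‖1 - v‖ := by
    refine h3.trans ?_
    have := Complex.abs_im_le_norm (1 - v)
    simpa using this
  have hG1 : ‖Complex.Gamma (1 - v)‖ ≤ 8 := by
    rw [hG, norm_div, div_le_iff₀ (by linarith)]
    linarith
  have hsin : ‖Complex.sin (π * v)‖ ≤ Real.exp (π * |v.im|) := by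
    refine (Pool.Agent.H62.norm_sin_le _).trans (le_of_eq ?_)
    have : (π * v : ℂ).im = π * v.im := by simp
    rw [this, abs_mul, abs_of_pos Real.pi_pos]
  have hG0 : Complex.Gamma (1 - v) ≠ 0 := by
    rw [hG]
    exact div_ne_zero (Complex.Gamma_ne_zero_of_re_pos (by rw [hre]; linarith)) hv1
  have hG3 : Complex.Gamma v ≠ 0 := by
    apply Complex.Gamma_ne_zero
    intro m h
    apply him0
    rw [h]
    simp
  have hsin0 : Complex.sin (π * v) ≠ 0 := by
    intro h
    rw [h, div_zero] at hrefl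
    exact mul_ne_zero hG3 hG0 hrefl
  have h4 : (Complex.Gamma v)⁻¹ = Complex.sin (π * v) * Complex.Gamma (1 - v) / π := by
    have hpi : (π : ℂ) ≠ 0 := by exact_mod_cast Real.pi_pos.ne'
    rw [eq_div_iff hsin0] at hrefl
    rw [eq_div_iff hpi]
    calc (Complex.Gamma v)⁻¹ * (π : ℂ) =
          (Complex.Gamma v)⁻¹ * (Complex.Gamma v * Complex.Gamma (1 - v) * Complex.sin (π * v)) := by rw [hrefl]
      _ = Complex.sin (π * v) * Complex.Gamma (1 - v) := by
          rw [mul_assoc, inv_mul_cancel_left₀ hG3, mul_comm]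
  rw [h4, norm_div, norm_mul, Complex.norm_real, Real.norm_eq_abs, abs_of_pos Real.pi_pos,
    div_le_iff₀ Real.pi_pos]
  have hpi := Real.pi_gt_three
  have h5 : 0 < Real.exp (π * |v.im|) := Real.exp_pos _
  calc ‖Complex.sin (π * v)‖ * ‖Complex.Gamma (1 - v)‖ ≤ Real.exp (π * |v.im|) * 8 := by gcongr
    _ = 8 * Real.exp (π * |v.im|) * 1 := by ring
    _ ≤ _ := by gcongr; linarith

private lemma inv_gr88 {s : ℂ} (h1 : -1 ≤ s.re) (h2 : s.re ≤ 3) (h3 : 1 ≤ |s.im|) :
    ‖(Complex.Gammaℝ s)⁻¹‖ ≤ 128 * Real.exp (2 * |s.im|) := by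
  rw [Complex.Gammaℝ_def, mul_inv, norm_mul, norm_inv, Complex.norm_cpow_eq_rpow_re_of_pos Real.pi_pos]
  have hre : (s / 2 : ℂ).re = s.re / 2 := by simp
  have him : (s / 2 : ℂ).im = s.im / 2 := by simp
  have hre2 : (-s / 2 : ℂ).re = -(s.re / 2) := by simp; ring
  rw [hre2, Real.rpow_neg Real.pi_pos.le, inv_inv]
  have hpi := Real.pi_gt_three
  have hpi4 : π ≤ 4 := Real.pi_le_four
  have h4 : π ^ (s.re / 2) ≤ 16 := by
    calc π ^ (s.re / 2) ≤ π ^ (2 : ℝ) := by
          apply Real.rpow_le_rpow_of_exponent_le (by linarith)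
          linarith
      _ = π ^ 2 := by norm_num
      _ ≤ 16 := by nlinarith
  have h5 : 0 ≤ π ^ (s.re / 2) := by positivity
  have h6 := inv_gam88 (v := s / 2) (by rw [hre]; linarith) (by rw [hre]; linarith)
    (by rw [him, abs_div, abs_of_pos (by norm_num : (0:ℝ) < 2)]; linarith)
  have h7 : Real.exp (π * |(s / 2 : ℂ).im|) ≤ Real.exp (2 * |s.im|) := by
    apply Real.exp_le_exp.mpr
    rw [him, abs_div, abs_of_pos (by norm_num : (0:ℝ) < 2)]
    have := abs_nonneg s.im
    nlinarith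
  calc π ^ (s.re / 2) * ‖(Complex.Gamma (s / 2))⁻¹‖ ≤ 16 * (8 * Real.exp (2 * |s.im|)) := by
        gcongr
        exact h6.trans (by gcongr)
    _ = _ := by ring

/-- the entire part of the completed zeta function in the strip -/
private lemma lam0_88 {s : ℂ} (h1 : -1 ≤ s.re) (h2 : s.re ≤ 3) :
    ‖completedRiemannZeta₀ s‖ ≤ Pool.Agent.Helper57.Zeta.K0 + 16 := by
  rcases le_total (1 / 2) s.re with h | h
  · refine (Pool.Agent.Helper57.Zeta.norm_completedZeta₀_le h).trans ?_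
    have := gam_up88 (x := s.re / 2) (by linarith) (by linarith)
    linarith
  · rw [← completedRiemannZeta₀_one_sub]
    have hre : (1 - s).re = 1 - s.re := by simp
    refine (Pool.Agent.Helper57.Zeta.norm_completedZeta₀_le (by rw [hre]; linarith)).trans ?_
    rw [hre]
    have := gam_up88 (x := (1 - s.re) / 2) (by linarith) (by linarith)
    linarith

private lemma zeta_up88 {s : ℂ} (h1 : -1 ≤ s.re) (h2 : s.re ≤ 3) (h3 : 1 ≤ |s.im|) :
    ‖riemannZeta s‖ ≤ (Pool.Agent.Helper57.Zeta.K0 + 18) * (128 * Real.exp (2 * |s.im|)) := by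
  have hK := Pool.Agent.Helper57.Zeta.K0_nonneg
  have hs : 1 ≤ ‖s‖ := h3.trans (Complex.abs_im_le_norm s)
  have hs0 : s ≠ 0 := by
    intro h
    rw [h, norm_zero] at hs
    linarith
  have hs1 : 1 ≤ ‖1 - s‖ := by
    refine h3.trans ?_
    have := Complex.abs_im_le_norm (1 - s)
    simpa using this
  rw [riemannZeta_def_of_ne_zero hs0, completedRiemannZeta_eq, div_eq_mul_inv, norm_mul]
  have e1 : ‖completedRiemannZeta₀ s - 1 / s - 1 / (1 - s)‖ ≤ Pool.Agent.Helper57.Zeta.K0 + 18 := by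
    have a1 : ‖(1 : ℂ) / s‖ ≤ 1 := by
      rw [norm_div, norm_one, div_le_one (by linarith)]
      exact hs
    have a2 : ‖(1 : ℂ) / (1 - s)‖ ≤ 1 := by
      rw [norm_div, norm_one, div_le_one (by linarith)]
      exact hs1
    have a3 := norm_sub_le (completedRiemannZeta₀ s - 1 / s) (1 / (1 - s))
    have a4 := norm_sub_le (completedRiemannZeta₀ s) (1 / s)
    have a5 := lam0_88 h1 h2
    linarith
  exact mul_le_mul e1 (inv_gr88 h1 h2 h3) (norm_nonneg _) (by linarith)

private lemma tz_bound88 : ∃ C : ℝ, 0 ≤ C ∧ ∀ z : ℂ, |z.re| ≤ 1 →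
    ‖LFunctionTrivChar₁ 1 (1 + 2 * z) / 2‖ ≤ C * Real.exp (6 * |z.im|) := by
  have hK : IsCompact ((Icc (-1 : ℝ) 1) ×ℂ (Icc (-1 : ℝ) 1)) := isCompact_Icc.reProdIm isCompact_Icc
  obtain ⟨c₁, hc₁⟩ := hK.exists_bound_of_continuousOn tz_diff88.continuous.continuousOn
  have hK0 := Pool.Agent.Helper57.Zeta.K0_nonneg
  set c₂ : ℝ := (Pool.Agent.Helper57.Zeta.K0 + 18) * 128 with hc₂
  have hc₂0 : 0 ≤ c₂ := by positivity
  refine ⟨|c₁| + c₂, by positivity, fun z hz => ?_⟩
  have hE : 1 ≤ Real.exp (6 * |z.im|) := Real.one_le_exp (by positivity)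
  rcases le_total |z.im| (1 / 2) with h | h
  · have h1 : ‖LFunctionTrivChar₁ 1 (1 + 2 * z) / 2‖ ≤ |c₁| := by
      refine (hc₁ z ?_).trans (le_abs_self _)
      rw [Complex.mem_reProdIm]
      exact ⟨⟨(abs_le.mp hz).1, (abs_le.mp hz).2⟩,
        ⟨by linarith [(abs_le.mp h).1], by linarith [(abs_le.mp h).2]⟩⟩
    nlinarith [abs_nonneg c₁]
  · have hh := abs_le.mp hz
    have hre : (1 + 2 * z).re = 1 + 2 * z.re := by simp
    have him : (1 + 2 * z).im = 2 * z.im := by simp
    have him2 : |(1 + 2 * z).im| = 2 * |z.im| := by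
      rw [him, abs_mul, abs_of_pos (by norm_num : (0:ℝ) < 2)]
    have hne : (1 + 2 * z) ≠ 1 := by
      intro h0
      have := congrArg Complex.im h0
      rw [him] at this
      simp at this
      rw [this, abs_zero] at h
      linarith
    have hz2 := zeta_up88 (s := 1 + 2 * z) (by rw [hre]; linarith) (by rw [hre]; linarith)
      (by rw [him2]; linarith)
    rw [him2] at hz2
    have e0 : LFunctionTrivChar₁ 1 (1 + 2 * z) / 2 = z * riemannZeta (1 + 2 * z) := by
      rw [LFunctionTrivChar₁, Function.update_of_ne hne, LFunctionTrivChar, LFunction_modOne_eq]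
      ring
    have hz1 : ‖z‖ ≤ Real.exp (2 * |z.im|) := by
      have a1 := Complex.norm_le_abs_re_add_abs_im z
      have a2 : 2 * |z.im| + 1 ≤ Real.exp (2 * |z.im|) := Real.add_one_le_exp _
      have a3 := abs_nonneg z.im
      linarith
    have e6 : Real.exp (6 * |z.im|) = Real.exp (2 * |z.im|) * Real.exp (2 * (2 * |z.im|)) := by
      rw [← Real.exp_add]
      congr 1
      ring
    rw [e0, norm_mul]
    calc ‖z‖ * ‖riemannZeta (1 + 2 * z)‖ ≤ Real.exp (2 * |z.im|) *
          ((Pool.Agent.Helper57.Zeta.K0 + 18) * (128 * Real.exp (2 * (2 * |z.im|)))) := by gcongr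
      _ = c₂ * Real.exp (6 * |z.im|) := by rw [e6, hc₂]; ring
      _ ≤ _ := by
        have := abs_nonneg c₁
        nlinarith

theorem SZ_bound (ev : Bool) {d : ℝ} (hd : 0 < d) : ∃ c : ℝ, ∀ z : ℂ, |z.re| ≤ 1 →
    ‖SZ ev d z‖ ≤ c * Real.exp (-|z.im|) := by
  obtain ⟨c, hc⟩ := SS_bound ev (half_pos hd)
  obtain ⟨C, hC0, hC⟩ := tz_bound88
  set a : ℝ := 3 * d ^ 2 / 8 with ha
  have ha0 : 0 < a := by positivity
  have hc0 : 0 ≤ c := by
    have h := (norm_nonneg _).trans (hc 0 (by simp))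
    simp at h
    exact h
  refine ⟨Real.exp a * Real.exp (9 / a) * c * C, fun z hz => ?_⟩
  have e1 : SZ ev d z = Complex.exp ((a : ℂ) * z ^ 2) * SS ev (d / 2) z * (LFunctionTrivChar₁ 1 (1 + 2 * z) / 2) := by
    unfold SZ
    congr 1
    unfold SS
    rw [← mul_assoc, ← Complex.exp_add]
    congr 2
    rw [ha]
    push_cast
    ring
  have e2 : ‖Complex.exp ((a : ℂ) * z ^ 2)‖ ≤ Real.exp a * Real.exp (-(a * |z.im| ^ 2)) := by
    rw [Complex.norm_exp, ← Real.exp_add]
    apply Real.exp_le_exp.mpr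
    rw [Complex.re_ofReal_mul]
    have h3 : (z ^ 2).re = z.re ^ 2 - z.im ^ 2 := by
      rw [pow_two, Complex.mul_re]; ring
    rw [h3, sq_abs]
    have h2 : z.re ^ 2 ≤ 1 := by
      rw [← sq_abs]
      have := abs_nonneg z.re
      nlinarith
    nlinarith
  have e3 : Real.exp (-(a * |z.im| ^ 2)) * Real.exp (6 * |z.im|) ≤ Real.exp (9 / a) := by
    rw [← Real.exp_add]
    apply Real.exp_le_exp.mpr
    have h2 : 0 ≤ a * (|z.im| - 3 / a) ^ 2 := by positivity
    have h3 : a * (|z.im| - 3 / a) ^ 2 = a * |z.im| ^ 2 - 6 * |z.im| + 9 / a := by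
      field_simp
      ring
    linarith
  rw [e1, norm_mul, norm_mul]
  calc ‖Complex.exp ((a : ℂ) * z ^ 2)‖ * ‖SS ev (d / 2) z‖ * ‖LFunctionTrivChar₁ 1 (1 + 2 * z) / 2‖
      ≤ (Real.exp a * Real.exp (-(a * |z.im| ^ 2))) * (c * Real.exp (-|z.im|)) * (C * Real.exp (6 * |z.im|)) := by
        gcongr
        · exact hc z hz
        · exact hC z hz
    _ = Real.exp a * (Real.exp (-(a * |z.im| ^ 2)) * Real.exp (6 * |z.im|)) * c * C * Real.exp (-|z.im|) := by ring
    _ ≤ Real.exp a * Real.exp (9 / a) * c * C * Real.exp (-|z.im|) := by gcongr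

end Pool.Agent.QT
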